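import Pool.Agent.Y679.Cr.Tails
import Pool.Agent.TH498.CO.Lim

/-!
# All the moments of the quadratic twists, by the conductor, outside of a set of density zero
-/

set_option autoImplicit false

namespace Pool.Agent.Q8.CD

open Filter Finset Topology Pool.Agent.H925R.Szpiro Pool.Agent.W307.RT Pool.Agent.Y679.Cr
open Pool.Agent.TH841.SH (Bd)
open Pool.Agent.Results.MP_6073f3_nt

variable {P : ℤ × ℤ → Prop}

/-- **All the moments over the twists by `d`, off one set of density zero.** -/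
theorem high_tw (hP : Good P) : ∃ (n : ℤ → ℤ × ℤ → ℝ) (X : Set (ℤ × ℤ)),
    (∀ f : ℤ × ℤ → ℕ, Bdd f →
      Tendsto (fun Z : ℕ => ((Gm P f Z ∩ X).ncard : ℝ) / (Gm P f Z).ncard) atTop (𝓝 0)) ∧
    (∀ c, P c → (∀ d : ℤ, d ≠ 0 → Bd (Sh (d ^ 2 * c.1) (d ^ 3 * c.2)) (n d c)) ∧
      ∃ e1 e2 e3 : ℤ, ∀ x : ℤ, x ^ 3 + c.1 * x + c.2 = (x - e1) * (x - e2) * (x - e3)) ∧
    ∀ θ : ℝ, 0 < θ → ∀ A : ℝ, 0 ≤ A → ∃ C : ℝ, 1 ≤ C ∧ ∀ f : ℤ × ℤ → ℕ, Bdd f →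
      ∀ (Z : ℕ) (S : Finset (ℤ × ℤ)), (S : Set (ℤ × ℤ)) ⊆ Gm P f Z \ X →
      ∀ d : ℤ, d ≠ 0 → (d.natAbs : ℝ) ≤ ((max Z 2 : ℕ) : ℝ) ^ A →
      ∑ c ∈ S, n d c ^ θ ≤
        C * (16 * 512 ^ θ) ^ d.natAbs.primeFactors.card * ((Gm P f Z).ncard : ℝ) := by
  classical
  obtain ⟨n, Ex, hn, hdens, hmom⟩ := Pool.Agent.TH498.CO.lims
  refine ⟨fun d c => n d (nu c), {c | nu c ∈ Ex} ∪ Tp, fun f hf => ?_, fun c hc => ?_, ?_⟩
  · -- density
    have hcl : Pool.Agent.TH498.CO.CL (ct f) := ct_ok hf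
    obtain ⟨X0, hX0⟩ := ConductorTails.result
    obtain ⟨⟨C0, hC0⟩, -⟩ := hX0 3 (by norm_num) (ct f) (ct_ok hf)
    have hup : ∃ C : ℝ, ∀ N : ℝ, 4 * 10 ^ 7 ≤ N → (Fc f N).Finite ∧
        ((Fc f N).ncard : ℝ) ≤ C * N ^ ((2 : ℝ) / 3) :=
      ⟨C0, fun N hN => ⟨(hC0 N hN).1, (hC0 N hN).2.2⟩⟩
    obtain ⟨R, hR, hcmp⟩ := compare hP hf hup
    have htp := Tp_zero hP hf
    have hpr : Tendsto (fun Z : ℕ => ConductorTails.proportion (ct f) 3 Ex (Z : ℝ)) atTop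
        (𝓝 0) := by
      rw [Metric.tendsto_atTop]
      intro ε hε
      obtain ⟨N0, hN0, h⟩ := hdens 3 (by norm_num) (ε / 2) (by positivity)
      obtain ⟨Z0, hZ0⟩ := exists_nat_ge N0
      refine ⟨Z0, fun Z hZ => ?_⟩
      have hZN : N0 ≤ (Z : ℝ) := hZ0.trans (by exact_mod_cast hZ)
      have hfin := (hC0 Z (hN0.trans hZN)).1
      have h1 := h (ct f) hcl Z hZN hfin.toFinset (Set.Finite.coe_toFinset _)
      have h2 := ConductorTails.proportion_eq (c := ct f) (K := 3) (N := (Z : ℝ))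
        (S := hfin.toFinset) (Set.Finite.coe_toFinset _) Ex
      rw [dist_zero_right, Real.norm_eq_abs, abs_of_nonneg (ConductorTails.proportion_nonneg _ _ _ _),
        h2]
      refine lt_of_le_of_lt (div_le_of_le_mul₀ (Nat.cast_nonneg _) (by positivity) ?_)
        (half_lt_self hε)
      convert h1
    have h1 : Tendsto (fun Z : ℕ => R * ConductorTails.proportion (ct f) 3 Ex Z +
        2 * (((Gm P f Z ∩ Tp).ncard : ℝ) / (Gm P f Z).ncard)) atTop (𝓝 0) := by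
      have h2 := (hpr.const_mul R).add (htp.const_mul 2)
      simpa using h2
    refine squeeze_zero' (Eventually.of_forall fun Z => by positivity) ?_ h1
    filter_upwards [hcmp] with Z hZ
    have h3 := hZ Ex {c | nu c ∈ Ex} (fun c hc _ => hc)
    have h4 : ((Gm P f Z ∩ ({c | nu c ∈ Ex} ∪ Tp)).ncard : ℝ) ≤
        ((Gm P f Z ∩ {c | nu c ∈ Ex}).ncard : ℝ) + ((Gm P f Z ∩ Tp).ncard : ℝ) := by
      rw [Set.inter_union_distrib_left]
      exact_mod_cast Set.ncard_union_le _ _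
    have h5 := div_le_div_of_nonneg_right h4 (Nat.cast_nonneg (α := ℝ) (Gm P f Z).ncard)
    rw [add_div] at h5
    linarith
  · obtain ⟨h1, h2⟩ := hP.ok c hc
    obtain ⟨h3, e1, e2, e3, h4⟩ := hn (nu c) h1 h2
    unfold nu at h3 h4 ⊢
    simp only [neg_neg] at h3 h4
    exact ⟨h3, e1, e2, e3, h4⟩
  · intro θ hθ A hA
    obtain ⟨C, hC, h⟩ := hmom θ hθ 3 A (by norm_num) hA
    obtain ⟨c0, hc0, hall⟩ := Gm_all hP (4 * 10 ^ 7)
    obtain ⟨X0, hX0⟩ := ConductorTails.result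
    have hfun : ∀ f : ℤ × ℤ → ℕ, Bdd f → ∀ N : ℝ, 4 * 10 ^ 7 ≤ N → (Fc f N).Finite :=
      fun f hf N hN => by
        obtain ⟨⟨C0, hC0⟩, -⟩ := hX0 3 (by norm_num) (ct f) (ct_ok hf)
        exact (hC0 N hN).1
    obtain ⟨C1, hC1, hup⟩ := Pool.Agent.TH498.CO.fc_upper 3 (by norm_num)
    refine ⟨max 1 (C * C1 / c0), le_max_left _ _, fun f hf Z S hS d hd hdZ => ?_⟩
    obtain ⟨V, hV⟩ : ∃ V : ℝ, V = (16 * 512 ^ θ) ^ d.natAbs.primeFactors.card := ⟨_, rfl⟩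
    have hV0 : 0 < V := by rw [hV]; positivity
    rw [← hV]
    rcases S.eq_empty_or_nonempty with hSe | hSn
    · rw [hSe, sum_empty]
      positivity
    have hne : (Gm P f Z).Nonempty := by
      obtain ⟨c, hc⟩ := hSn
      exact ⟨c, (hS (mem_coe.2 hc)).1⟩
    obtain ⟨N, hN⟩ : ∃ N : ℕ, N = max Z (4 * 10 ^ 7) := ⟨_, rfl⟩
    have hN1 : (4 * 10 ^ 7 : ℝ) ≤ (N : ℝ) := by
      rw [hN]
      exact_mod_cast le_max_right Z (4 * 10 ^ 7)
    have hN2 : (Z : ℝ) ≤ (N : ℝ) := by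
      rw [hN]
      exact_mod_cast le_max_left Z (4 * 10 ^ 7)
    have hN3 : ((max Z 2 : ℕ) : ℝ) ≤ (N : ℝ) := by
      have : max Z 2 ≤ N := by omega
      exact_mod_cast this
    have h1 := hall f hf Z hne
    rw [← hN] at h1
    have hcl : Pool.Agent.TH498.CO.CL (ct f) := ct_ok hf
    have hfin := hfun f hf N hN1
    obtain ⟨S', hS'⟩ : ∃ S' : Finset (ℤ × ℤ), (S' : Set (ℤ × ℤ)) = Fc f N :=
      ⟨hfin.toFinset, Set.Finite.coe_toFinset _⟩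
    have h2 := h (ct f) hcl N hN1 S' hS' d hd
      (hdZ.trans (Real.rpow_le_rpow (Nat.cast_nonneg _) hN3 hA))
    rw [← hV] at h2
    have hnn : ∀ q : ℤ × ℤ, q ∈ S' → 0 ≤ n d q ^ θ := by
      intro q hq
      have hq' : q ∈ (S' : Set (ℤ × ℤ)) := mem_coe.2 hq
      rw [hS'] at hq'
      have := (hn q hq'.1 hq'.2.1).1 d hd
      exact Real.rpow_nonneg (le_trans zero_le_one (Pool.Agent.TH498.CO.one_le_of_bd this)) _
    have h3 : ∑ c ∈ S, n d (nu c) ^ θ ≤ ∑ q ∈ S'.filter (fun q => q ∉ Ex), n d q ^ θ := by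
      rw [← sum_image (f := fun q => n d q ^ θ) fun a _ b _ h => nu_inj h]
      refine sum_le_sum_of_subset_of_nonneg ?_ fun q hq _ => hnn q (mem_filter.1 hq).1
      intro q hq
      obtain ⟨c, hc, rfl⟩ := mem_image.1 hq
      obtain ⟨h6, h7⟩ := hS (mem_coe.2 hc)
      rw [mem_filter, ← mem_coe, hS']
      exact ⟨mem_Fc hP hf hN2 h6 fun h => h7 (Or.inr h), fun h => h7 (Or.inl h)⟩
    have h4 : (S'.card : ℝ) ≤ C1 * (N : ℝ) ^ ((2 : ℝ) / 3) := hup (ct f) hcl N hN1 S' hS'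
    calc ∑ c ∈ S, n d (nu c) ^ θ ≤ C * V * S'.card := by
          refine h3.trans ?_
          convert h2
      _ ≤ C * V * (C1 * (N : ℝ) ^ ((2 : ℝ) / 3)) := by gcongr
      _ = C * C1 / c0 * V * (c0 * (N : ℝ) ^ ((2 : ℝ) / 3)) := by
          field_simp
      _ ≤ C * C1 / c0 * V * ((Gm P f Z).ncard : ℝ) :=
          mul_le_mul_of_nonneg_left h1 (by positivity)
      _ ≤ _ := mul_le_mul_of_nonneg_right (mul_le_mul_of_nonneg_right (le_max_right _ _) hV0.le)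
          (Nat.cast_nonneg _)

end Pool.Agent.Q8.CD
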