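import Pool.Agent.Q8.CD.Mom
import Pool.Agent.Q8.CD.High
import Pool.Agent.TH841.NF.FamN

/-!
# The curves with full rational 2-torsion by the conductor, over multiquadratic fields
-/

set_option autoImplicit false

namespace Pool.Agent.Q8.CD

open Filter Finset Topology Pool.Agent.H925R.Szpiro Pool.Agent.W307.RT Pool.Agent.Y679.Cr
open Pool.Agent.TH841.SH (Bd)
open Pool.Agent.TH841.NF (EF Gen)
open Pool.Agent.TH841.NF.D (HasDiv crk rk)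

variable {P : ℤ × ℤ → Prop}

lemma disc_ne (hP : Good P) {c : ℤ × ℤ} (hc : P c) : 4 * c.1 ^ 3 + 27 * c.2 ^ 2 ≠ 0 := by
  have h := (hP.ok c hc).1.1
  intro h0
  apply h
  unfold D
  linear_combination (-1 : ℤ) * h0

/-- the bound over one field -/
lemma fld_bd {s : ℕ} {d : Fin s → ℤ} (hd : ∀ i, d i ≠ 0) {F : Type} [Field F] [NumberField F]
    (hF : Gen F d) {c : ℤ × ℤ} (hD : 4 * c.1 ^ 3 + 27 * c.2 ^ 2 ≠ 0)
    (he : ∃ e1 e2 e3 : ℤ, ∀ x : ℤ, x ^ 3 + c.1 * x + c.2 = (x - e1) * (x - e2) * (x - e3))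
    (N : Finset (Fin s) → ℝ)
    (hN : ∀ T, Bd (Sh ((∏ i ∈ T, d i) ^ 2 * c.1) ((∏ i ∈ T, d i) ^ 3 * c.2)) (N T))
    {q : ℕ} (hq : HasDiv (EF c.1 c.2 F) q) :
    (2 : ℝ) ^ (rk (EF c.1 c.2 F) + q) ≤ ∏ T, N T := by
  obtain ⟨e1, e2, e3, he⟩ := he
  exact Pool.Agent.TH841.NF.one_field hF hd hD N hN (fun T =>
    Pool.Agent.W307.RG.fin_tw hD he (prod_ne_zero_iff.2 fun i _ => hd i)) hq

lemma prod_rpow_le' {ι : Type} [Fintype ι] [Nonempty ι] (x : ι → ℝ) (hx : ∀ i, 0 ≤ x i)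
    {θ : ℝ} (hθ : 0 ≤ θ) : (∏ i, x i) ^ (θ / Fintype.card ι) ≤ ∑ i, x i ^ θ := by
  obtain ⟨i0, hi0⟩ := Finite.exists_max x
  have hc : (0 : ℝ) < Fintype.card ι := by exact_mod_cast Fintype.card_pos
  have h1 : ∏ i, x i ≤ x i0 ^ Fintype.card ι := by
    refine (prod_le_prod (fun i _ => hx i) fun i _ => hi0 i).trans (le_of_eq ?_)
    rw [prod_const, card_univ]
  calc (∏ i, x i) ^ (θ / Fintype.card ι) ≤ (x i0 ^ Fintype.card ι) ^ (θ / Fintype.card ι) :=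
        Real.rpow_le_rpow (prod_nonneg fun i _ => hx i) h1 (by positivity)
    _ = x i0 ^ θ := by
        rw [← Real.rpow_natCast, ← Real.rpow_mul (hx i0), mul_div_cancel₀ _ hc.ne']
    _ ≤ _ := single_le_sum (f := fun i => x i ^ θ)
        (fun i _ => Real.rpow_nonneg (hx i) _) (mem_univ i0)

lemma natAbs_prod_le {s : ℕ} {d : Fin s → ℤ} (hd : ∀ i, d i ≠ 0) (T : Finset (Fin s)) :
    (∏ i ∈ T, d i).natAbs ≤ (∏ i, d i).natAbs := by
  refine Nat.le_of_dvd ?_ ?_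
  · exact Int.natAbs_pos.2 (prod_ne_zero_iff.2 fun i _ => hd i)
  · exact Int.natAbs_dvd_natAbs.2 (prod_dvd_prod_of_subset _ _ _ (subset_univ T))

lemma omega_prod_le {s : ℕ} {d : Fin s → ℤ} (hd : ∀ i, d i ≠ 0) (T : Finset (Fin s)) :
    (∏ i ∈ T, d i).natAbs.primeFactors.card ≤ (∏ i, d i).natAbs.primeFactors.card := by
  refine card_le_card (Nat.primeFactors_mono ?_ ?_)
  · exact Int.natAbs_dvd_natAbs.2 (prod_dvd_prod_of_subset _ _ _ (subset_univ T))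
  · exact Int.natAbs_ne_zero.2 (prod_ne_zero_iff.2 fun i _ => hd i)

/-- **The fractional moments over multiquadratic fields, all the curves.** -/
theorem fld_mom (hP : Good P) (hroots : ∀ c, P c → ∃ e1 e2 e3 : ℤ, ∀ x : ℤ,
      x ^ 3 + c.1 * x + c.2 = (x - e1) * (x - e2) * (x - e3)) (s : ℕ)
    {θ : ℝ} (hθ0 : 0 < θ) (hθ : θ < 2 / 3) {A : ℝ} (hA : 0 ≤ A) :
    ∃ C : ℝ, 1 ≤ C ∧ ∀ f : ℤ × ℤ → ℕ, Bdd f → ∀ (Z : ℕ) (S : Finset (ℤ × ℤ)),
      (S : Set (ℤ × ℤ)) ⊆ Gm P f Z → ∀ d : Fin s → ℤ, (∀ i, d i ≠ 0) →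
      ((∏ i, d i).natAbs : ℝ) ≤ ((max Z 2 : ℕ) : ℝ) ^ A →
      ∀ (F : Type) [Field F] [NumberField F], Gen F d →
      (∀ c ∈ S, BddAbove {q | HasDiv (EF c.1 c.2 F) q}) ∧
      ∑ c ∈ S, ((2 : ℝ) ^ (rk (EF c.1 c.2 F) + crk (EF c.1 c.2 F))) ^ (θ / 2 ^ s) ≤
        C * 128 ^ (∏ i, d i).natAbs.primeFactors.card * ((Gm P f Z).ncard : ℝ) ∧
      ∀ r : ℕ, ((S.filter fun c => r ≤ rk (EF c.1 c.2 F) + crk (EF c.1 c.2 F)).card : ℝ) ≤
        C * 128 ^ (∏ i, d i).natAbs.primeFactors.card * ((Gm P f Z).ncard : ℝ) /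
          ((2 : ℝ) ^ r) ^ (θ / 2 ^ s) := by
  classical
  obtain ⟨C, hC, h⟩ := momN_tw hP hθ0 hθ hA
  refine ⟨2 ^ s * C, by
    have : (1 : ℝ) ≤ 2 ^ s := one_le_pow₀ (by norm_num)
    nlinarith, fun f hf Z S hS d hd hdZ F _ _ hF => ?_⟩
  obtain ⟨V, hV⟩ : ∃ V : ℝ, V = 128 ^ (∏ i, d i).natAbs.primeFactors.card := ⟨_, rfl⟩
  rw [← hV]
  have hcard : Fintype.card (Finset (Fin s)) = 2 ^ s := by
    rw [Fintype.card_finset, Fintype.card_fin]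
  choose n hn1 hn2 using fun T : Finset (Fin s) => h f hf Z S hS (∏ i ∈ T, d i)
    (prod_ne_zero_iff.2 fun i _ => hd i)
    (le_trans (by exact_mod_cast natAbs_prod_le hd T) hdZ)
  have hn0 : ∀ T, ∀ c ∈ S, 0 ≤ n T c := fun T c hc =>
    le_trans zero_le_one (Pool.Agent.TH498.CO.one_le_of_bd (hn1 T c hc))
  have hfam := Pool.Agent.TH841.NF.famR S (fun _ => F) (fun c => EF c.1 c.2 F)
    (fun c => ∏ T : Finset (Fin s), n T c) (θ / 2 ^ s) (by positivity)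
    (2 ^ s * C * V * ((Gm P f Z).ncard : ℝ)) (fun c hc q hq => ?_) ?_
  · exact hfam
  · exact fld_bd hd hF (disc_ne hP (hS (mem_coe.2 hc)).1) (hroots c (hS (mem_coe.2 hc)).1)
      (fun T => n T c) (fun T => hn1 T c hc) hq
  · calc ∑ c ∈ S, (∏ T : Finset (Fin s), n T c) ^ (θ / 2 ^ s)
        ≤ ∑ c ∈ S, ∑ T : Finset (Fin s), n T c ^ θ := by
          refine sum_le_sum fun c hc => ?_
          have := prod_rpow_le' (fun T : Finset (Fin s) => n T c) (fun T => hn0 T c hc) hθ0.le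
          rw [hcard] at this
          push_cast at this
          exact this
      _ = ∑ T : Finset (Fin s), ∑ c ∈ S, n T c ^ θ := sum_comm
      _ ≤ ∑ _T : Finset (Fin s), C * V * ((Gm P f Z).ncard : ℝ) := by
          refine sum_le_sum fun T _ => (hn2 T).trans ?_
          refine mul_le_mul_of_nonneg_right (mul_le_mul_of_nonneg_left ?_ (by linarith))
            (Nat.cast_nonneg _)
          rw [hV]
          exact pow_le_pow_right₀ (by norm_num) (omega_prod_le hd T)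
      _ = _ := by
          rw [sum_const, card_univ, hcard, nsmul_eq_mul]
          push_cast
          ring

/-- **All the moments over multiquadratic fields, off one set of density zero.** -/
theorem fld_high (hP : Good P) : ∃ X : Set (ℤ × ℤ),
    (∀ f : ℤ × ℤ → ℕ, Bdd f →
      Tendsto (fun Z : ℕ => ((Gm P f Z ∩ X).ncard : ℝ) / (Gm P f Z).ncard) atTop (𝓝 0)) ∧
    (∀ c, P c → ∃ e1 e2 e3 : ℤ, ∀ x : ℤ, x ^ 3 + c.1 * x + c.2 = (x - e1) * (x - e2) * (x - e3)) ∧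
    ∀ (s k : ℕ) (A : ℝ), 1 ≤ k → 0 ≤ A → ∃ C : ℝ, 1 ≤ C ∧ ∀ f : ℤ × ℤ → ℕ, Bdd f →
      ∀ (Z : ℕ) (S : Finset (ℤ × ℤ)), (S : Set (ℤ × ℤ)) ⊆ Gm P f Z \ X →
      ∀ d : Fin s → ℤ, (∀ i, d i ≠ 0) →
      ((∏ i, d i).natAbs : ℝ) ≤ ((max Z 2 : ℕ) : ℝ) ^ A →
      ∀ (F : Type) [Field F] [NumberField F], Gen F d →
      (∀ c ∈ S, BddAbove {q | HasDiv (EF c.1 c.2 F) q}) ∧
      ∑ c ∈ S, ((2 : ℝ) ^ (rk (EF c.1 c.2 F) + crk (EF c.1 c.2 F))) ^ k ≤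
        C * (16 * 512 ^ (2 ^ s * k)) ^ (∏ i, d i).natAbs.primeFactors.card *
          ((Gm P f Z).ncard : ℝ) ∧
      ∀ r : ℕ, ((S.filter fun c => r ≤ rk (EF c.1 c.2 F) + crk (EF c.1 c.2 F)).card : ℝ) ≤
        C * (16 * 512 ^ (2 ^ s * k)) ^ (∏ i, d i).natAbs.primeFactors.card *
          ((Gm P f Z).ncard : ℝ) / 2 ^ (k * r) := by
  classical
  obtain ⟨n, X, hX, hn, hmom⟩ := high_tw hP
  refine ⟨X, hX, fun c hc => (hn c hc).2, fun s k A hk hA => ?_⟩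
  have hcard : Fintype.card (Finset (Fin s)) = 2 ^ s := by
    rw [Fintype.card_finset, Fintype.card_fin]
  have hpos : (0 : ℝ) < ((2 ^ s * k : ℕ) : ℝ) := by
    have : 0 < 2 ^ s * k := by positivity
    exact_mod_cast this
  obtain ⟨C, hC, h⟩ := hmom ((2 ^ s * k : ℕ) : ℝ) hpos A hA
  simp only [Real.rpow_natCast] at h
  refine ⟨2 ^ s * C, by
    have : (1 : ℝ) ≤ 2 ^ s := one_le_pow₀ (by norm_num)
    nlinarith, fun f hf Z S hS d hd hdZ F _ _ hF => ?_⟩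
  obtain ⟨V, hV⟩ : ∃ V : ℝ, V = (16 * 512 ^ (2 ^ s * k)) ^ (∏ i, d i).natAbs.primeFactors.card :=
    ⟨_, rfl⟩
  rw [← hV]
  have hd' : ∀ T : Finset (Fin s), ∏ i ∈ T, d i ≠ 0 := fun T =>
    prod_ne_zero_iff.2 fun i _ => hd i
  have hP' : ∀ c ∈ S, P c := fun c hc => (hS (mem_coe.2 hc)).1.1
  have hbd : ∀ c ∈ S, ∀ T : Finset (Fin s),
      Bd (Sh ((∏ i ∈ T, d i) ^ 2 * c.1) ((∏ i ∈ T, d i) ^ 3 * c.2)) (n (∏ i ∈ T, d i) c) :=
    fun c hc T => (hn c (hP' c hc)).1 _ (hd' T)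
  have hn0 : ∀ c ∈ S, ∀ T : Finset (Fin s), 0 ≤ n (∏ i ∈ T, d i) c := fun c hc T =>
    le_trans zero_le_one (Pool.Agent.TH498.CO.one_le_of_bd (hbd c hc T))
  have h1 : ∀ T : Finset (Fin s), ∑ c ∈ S, n (∏ i ∈ T, d i) c ^ (2 ^ s * k) ≤
      C * V * ((Gm P f Z).ncard : ℝ) := fun T => by
    refine (h f hf Z S hS _ (hd' T) (le_trans (by exact_mod_cast natAbs_prod_le hd T) hdZ)).trans ?_
    refine mul_le_mul_of_nonneg_right (mul_le_mul_of_nonneg_left ?_ (by linarith))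
      (Nat.cast_nonneg _)
    rw [hV]
    refine pow_le_pow_right₀ ?_ (omega_prod_le hd T)
    have : (1 : ℝ) ≤ 512 ^ (2 ^ s * k) := one_le_pow₀ (by norm_num)
    linarith
  have hfam := Pool.Agent.TH841.NF.famN S (fun _ => F) (fun c => EF c.1 c.2 F)
    (fun c => ∏ T : Finset (Fin s), n (∏ i ∈ T, d i) c) k
    (2 ^ s * C * V * ((Gm P f Z).ncard : ℝ)) (fun c hc q hq => ?_) ?_
  · exact hfam
  · exact fld_bd hd hF (disc_ne hP (hP' c hc)) (hn c (hP' c hc)).2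
      (fun T => n (∏ i ∈ T, d i) c) (fun T => hbd c hc T) hq
  · calc ∑ c ∈ S, (∏ T : Finset (Fin s), n (∏ i ∈ T, d i) c) ^ k
        ≤ ∑ c ∈ S, ∑ T : Finset (Fin s), n (∏ i ∈ T, d i) c ^ (2 ^ s * k) := by
          refine sum_le_sum fun c hc => ?_
          have := Pool.Agent.TH841.NF.prod_pow_le
            (fun T : Finset (Fin s) => n (∏ i ∈ T, d i) c) (fun T => hn0 c hc T) k
          rw [hcard] at this
          exact this
      _ = ∑ T : Finset (Fin s), ∑ c ∈ S, n (∏ i ∈ T, d i) c ^ (2 ^ s * k) := sum_comm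
      _ ≤ ∑ _T : Finset (Fin s), C * V * ((Gm P f Z).ncard : ℝ) := sum_le_sum fun T _ => h1 T
      _ = _ := by
          rw [sum_const, card_univ, hcard, nsmul_eq_mul]
          push_cast
          ring

end Pool.Agent.Q8.CD
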