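import Mathlib

/-!
# Upper densities and tails
-/

set_option autoImplicit false

namespace Pool.Agent.Q8.CD

open Filter Topology Finset

/-- If `g ≤ x + m` with `x → 0`, then `limsup g ≤ m`. -/
lemma limsup_le_of_dens {g x : ℕ → ℝ} (hg : ∀ Z, 0 ≤ g Z) (hx : Tendsto x atTop (𝓝 0)) {m : ℝ}
    (h : ∀ Z, g Z ≤ x Z + m) : limsup g atTop ≤ m := by
  refine le_of_forall_pos_le_add fun ε hε => ?_
  have hcob : IsCoboundedUnder (· ≤ ·) atTop g :=
    (isBoundedUnder_of ⟨0, fun Z => hg Z⟩ : IsBoundedUnder (· ≥ ·) atTop g).isCoboundedUnder_flip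
  refine limsup_le_of_le hcob ?_
  filter_upwards [hx.eventually_lt_const hε] with Z hZ
  linarith [h Z]

lemma limsup_nonneg {g : ℕ → ℝ} (hg0 : ∀ Z, 0 ≤ g Z) (hg1 : ∀ Z, g Z ≤ 1) :
    0 ≤ limsup g atTop :=
  le_limsup_of_frequently_le (Eventually.frequently (Eventually.of_forall hg0))
    (isBoundedUnder_of ⟨1, hg1⟩)

/-- superexponential tails -/
lemma tail_tendsto {L : ℕ → ℝ} (h0 : ∀ r, 0 ≤ L r)
    (h : ∀ k : ℕ, 1 ≤ k → ∃ M : ℝ, ∀ r, L r ≤ M / 2 ^ (k * r)) (B : ℝ) :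
    Tendsto (fun r => B ^ r * L r) atTop (𝓝 0) := by
  obtain ⟨k, hk⟩ := pow_unbounded_of_one_lt (|B|) (one_lt_two (α := ℝ))
  obtain ⟨M, hM⟩ := h (k + 1) (by omega)
  have hM0 : 0 ≤ M := by simpa using (h0 0).trans (hM 0)
  have h1 : Tendsto (fun r : ℕ => M * (1 / 2 : ℝ) ^ r) atTop (𝓝 0) := by
    simpa using (tendsto_pow_atTop_nhds_zero_of_lt_one (by norm_num)
      (by norm_num : (1 / 2 : ℝ) < 1)).const_mul M
  refine squeeze_zero_norm (fun r => ?_) h1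
  rw [Real.norm_eq_abs, abs_mul, abs_pow, abs_of_nonneg (h0 r)]
  have h2 : |B| / 2 ^ (k + 1) ≤ 1 / 2 := by
    rw [div_le_iff₀ (by positivity), pow_succ]
    linarith
  calc |B| ^ r * L r ≤ |B| ^ r * (M / 2 ^ ((k + 1) * r)) := by
        gcongr
        exact hM r
    _ = M * (|B| / 2 ^ (k + 1)) ^ r := by
        rw [pow_mul, div_pow]
        ring
    _ ≤ M * (1 / 2) ^ r := by gcongr

/-- a natural number and the powers of two -/
lemma nat_le_rpow {κ : ℝ} (hκ : 0 < κ) (n : ℕ) :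
    (n : ℝ) ≤ (1 / (κ * Real.log 2)) * ((2 : ℝ) ^ n) ^ κ := by
  have hl : 0 < κ * Real.log 2 := mul_pos hκ (Real.log_pos (by norm_num))
  have h1 : ((2 : ℝ) ^ n) ^ κ = Real.exp (n * (κ * Real.log 2)) := by
    rw [Real.rpow_def_of_pos (by positivity), Real.log_pow]
    congr 1
    ring
  rw [h1, one_div, inv_mul_eq_div, le_div_iff₀ hl]
  have := Real.add_one_le_exp ((n : ℝ) * (κ * Real.log 2))
  linarith

end Pool.Agent.Q8.CD
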