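import Pool.Agent.Q8.CD.Sum
import Pool.Agent.Q8.CD.Triv
import Pool.Agent.Y679.Cr.Tails

/-!
# The fractional moments of the quadratic twists, by the conductor: all the curves
-/

set_option autoImplicit false

namespace Pool.Agent.Q8.CD

open Filter Finset Topology Pool.Agent.H925R.Szpiro Pool.Agent.W307.RT Pool.Agent.Y679.Cr
open Pool.Agent.TH841.SH (Bd)

variable {P : ℤ × ℤ → Prop}

lemma max_rpow_le {Z : ℕ} (hZ : 1 ≤ Z) {a : ℝ} (ha0 : 0 ≤ a) (ha : a ≤ 1) :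
    (((max Z 2 : ℕ) : ℝ)) ^ a ≤ 2 * (Z : ℝ) ^ a := by
  have h1 : (((max Z 2 : ℕ) : ℝ)) ≤ 2 * (Z : ℝ) := by
    have : max Z 2 ≤ 2 * Z := by omega
    exact_mod_cast this
  have hZ0 : (0 : ℝ) ≤ Z := Nat.cast_nonneg _
  calc (((max Z 2 : ℕ) : ℝ)) ^ a ≤ (2 * (Z : ℝ)) ^ a := Real.rpow_le_rpow (Nat.cast_nonneg _) h1 ha0
    _ = 2 ^ a * (Z : ℝ) ^ a := Real.mul_rpow (by norm_num) hZ0
    _ ≤ 2 ^ (1 : ℝ) * (Z : ℝ) ^ a := mul_le_mul_of_nonneg_right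
        (Real.rpow_le_rpow_of_exponent_le (by norm_num) ha) (Real.rpow_nonneg hZ0 _)
    _ = _ := by rw [Real.rpow_one]

/-- **The fractional moments over the twists by `d` of all the curves.** -/
theorem momN_tw (hP : Good P) {θ : ℝ} (hθ0 : 0 < θ) (hθ : θ < 2 / 3) {A : ℝ} (hA : 0 ≤ A) :
    ∃ C : ℝ, 1 ≤ C ∧ ∀ f : ℤ × ℤ → ℕ, Bdd f → ∀ (Z : ℕ) (S : Finset (ℤ × ℤ)),
      (S : Set (ℤ × ℤ)) ⊆ Gm P f Z → ∀ d : ℤ, d ≠ 0 → (d.natAbs : ℝ) ≤ ((max Z 2 : ℕ) : ℝ) ^ A →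
      ∃ n : ℤ × ℤ → ℝ, (∀ c ∈ S, Bd (Sh (d ^ 2 * c.1) (d ^ 3 * c.2)) (n c)) ∧
        ∑ c ∈ S, n c ^ θ ≤ C * 128 ^ d.natAbs.primeFactors.card * ((Gm P f Z).ncard : ℝ) := by
  classical
  obtain ⟨C1, hC1, hcs⟩ := curves_sum_tw θ hθ0 hθ 3 A (by norm_num) hA
  obtain ⟨η, C2, hη, hC2, htp⟩ := Tp_le hP
  obtain ⟨C3, hC3, heps⟩ := bd_eps_tw (η / θ) (by positivity)
  obtain ⟨c0, hc0, hall⟩ := Gm_all hP 1
  have hC30 : 0 < C3 := by linarith
  refine ⟨max 1 ((2 * C1 + C3 ^ θ * C2) / c0), le_max_left _ _, fun f hf Z S hS d hd hdZ => ?_⟩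
  obtain ⟨V, hV⟩ : ∃ V : ℝ, V = 128 ^ d.natAbs.primeFactors.card := ⟨_, rfl⟩
  have hV1 : 1 ≤ V := by rw [hV]; exact one_le_pow₀ (by norm_num)
  have hV0 : 0 < V := by linarith
  rw [← hV]
  rcases S.eq_empty_or_nonempty with hSe | hSn
  · exact ⟨fun _ => 0, by simp [hSe], by rw [hSe, sum_empty]; positivity⟩
  have hne : (Gm P f Z).Nonempty := by
    obtain ⟨c, hc⟩ := hSn
    exact ⟨c, hS (mem_coe.2 hc)⟩
  have hZ1 : 1 ≤ Z := by
    obtain ⟨c, hc⟩ := hne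
    exact (cs_pos c).trans_le (cs_le (hf c).1 hc.2)
  have hall' := hall f hf Z hne
  rw [max_eq_left hZ1] at hall'
  have hZr : (1 : ℝ) ≤ (Z : ℝ) := by exact_mod_cast hZ1
  have hZ0 : (0 : ℝ) < (Z : ℝ) := by linarith
  have hM1 : (1 : ℝ) ≤ ((max Z 2 : ℕ) : ℝ) := by
    have : 1 ≤ max Z 2 := by omega
    exact_mod_cast this
  have hZM : (Z : ℝ) ≤ ((max Z 2 : ℕ) : ℝ) := by exact_mod_cast le_max_left Z 2
  obtain ⟨n, hn, hsum⟩ := hcs ((max Z 2 : ℕ) : ℝ) hM1 ((S.filter fun c => c ∉ Tp).image nu) (by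
    intro q hq
    obtain ⟨c, hc, rfl⟩ := mem_image.1 hq
    obtain ⟨h1, h2⟩ := mem_filter.1 hc
    have h3 := mem_Fc hP hf hZM (hS (mem_coe.2 h1)) h2
    have h4 := (maps hP.ok (fun c _ => (hf c).1) (hS (mem_coe.2 h1))).2.2
    rw [one_mul] at h4
    exact ⟨h3.1, h3.2.1, h4.trans hZM, h3.2.2.2⟩) d hd hdZ
  obtain ⟨n', hn'⟩ : ∃ n' : ℤ × ℤ → ℝ, n' = fun c : ℤ × ℤ =>
    if c ∈ Tp then C3 * ((cs c : ℕ) : ℝ) ^ (η / θ) * 4 ^ d.natAbs.primeFactors.card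
    else n (nu c) := ⟨_, rfl⟩
  refine ⟨n', fun c hc => ?_, ?_⟩
  · rw [hn']
    simp only
    split_ifs with ht
    · obtain ⟨h1, h2⟩ := hP.ok c (hS (mem_coe.2 hc)).1
      have h3 := heps _ _ h1 h2 d hd
      rw [neg_neg, neg_neg] at h3
      exact h3
    · have h3 := hn (nu c) (mem_image_of_mem _ (mem_filter.2 ⟨hc, ht⟩))
      unfold nu at h3
      simp only [neg_neg] at h3
      exact h3
  · rw [← sum_filter_add_sum_filter_not S (fun c => c ∈ Tp)]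
    have h1 : ∑ c ∈ S.filter (fun c => c ∉ Tp), n' c ^ θ ≤ 2 * C1 * V * (Z : ℝ) ^ ((2 : ℝ) / 3) := by
      have h0 : ∑ c ∈ S.filter (fun c => c ∉ Tp), n' c ^ θ ≤
          C1 * V * ((max Z 2 : ℕ) : ℝ) ^ ((2 : ℝ) / 3) := by
        rw [← hV] at hsum
        refine le_trans (le_of_eq ?_) hsum
        rw [sum_image fun a _ b _ h => nu_inj h]
        refine sum_congr rfl fun c hc => ?_
        rw [hn']
        simp only
        rw [if_neg (mem_filter.1 hc).2]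
      refine h0.trans ?_
      have := max_rpow_le hZ1 (a := 2 / 3) (by norm_num) (by norm_num)
      calc C1 * V * ((max Z 2 : ℕ) : ℝ) ^ ((2 : ℝ) / 3) ≤ C1 * V * (2 * (Z : ℝ) ^ ((2 : ℝ) / 3)) :=
            mul_le_mul_of_nonneg_left this (by positivity)
        _ = _ := by ring
    have h2 : ∑ c ∈ S.filter (fun c => c ∈ Tp), n' c ^ θ ≤
        C3 ^ θ * C2 * V * (Z : ℝ) ^ ((2 : ℝ) / 3) := by
      have h4V : ((4 : ℝ) ^ d.natAbs.primeFactors.card) ^ θ ≤ V := by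
        have h41 : (1 : ℝ) ≤ (4 : ℝ) ^ d.natAbs.primeFactors.card := one_le_pow₀ (by norm_num)
        calc ((4 : ℝ) ^ d.natAbs.primeFactors.card) ^ θ ≤
              ((4 : ℝ) ^ d.natAbs.primeFactors.card) ^ (1 : ℝ) :=
              Real.rpow_le_rpow_of_exponent_le h41 (by linarith)
          _ = (4 : ℝ) ^ d.natAbs.primeFactors.card := Real.rpow_one _
          _ ≤ V := by
            rw [hV]
            exact pow_le_pow_left₀ (by norm_num) (by norm_num) _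
      have h3 : ∀ c ∈ S.filter (fun c => c ∈ Tp), n' c ^ θ ≤ C3 ^ θ * (Z : ℝ) ^ η * V := by
        intro c hc
        obtain ⟨g1, g2⟩ := mem_filter.1 hc
        rw [hn']
        simp only
        rw [if_pos g2, Real.mul_rpow (by positivity) (by positivity),
          Real.mul_rpow hC30.le (by positivity), ← Real.rpow_mul (Nat.cast_nonneg _),
          div_mul_cancel₀ _ hθ0.ne']
        refine mul_le_mul (mul_le_mul_of_nonneg_left ?_ (by positivity)) h4V (by positivity)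
          (by positivity)
        refine Real.rpow_le_rpow (Nat.cast_nonneg _) ?_ hη.le
        exact_mod_cast cs_le (hf c).1 (hS (mem_coe.2 g1)).2
      have h4 : ((S.filter fun c => c ∈ Tp).card : ℝ) ≤ C2 * (Z : ℝ) ^ ((2 : ℝ) / 3 - η) := by
        refine le_trans ?_ (htp f hf Z hZ1)
        rw [← Set.ncard_coe_finset]
        refine Nat.cast_le.2 (Set.ncard_le_ncard (fun c hc => ?_)
          ((Gm_fin hP hf Z).subset Set.inter_subset_left))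
        obtain ⟨g1, g2⟩ := mem_filter.1 (mem_coe.1 hc)
        exact ⟨hS (mem_coe.2 g1), g2⟩
      refine (sum_le_card_nsmul _ _ _ h3).trans ?_
      rw [nsmul_eq_mul]
      have h5 : (0 : ℝ) ≤ C3 ^ θ * (Z : ℝ) ^ η * V := by positivity
      refine (mul_le_mul_of_nonneg_right h4 h5).trans (le_of_eq ?_)
      have h6 : (Z : ℝ) ^ ((2 : ℝ) / 3 - η) * (Z : ℝ) ^ η = (Z : ℝ) ^ ((2 : ℝ) / 3) := by
        rw [← Real.rpow_add hZ0]
        congr 1
        ring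
      rw [← h6]
      ring
    have hpos : (0 : ℝ) ≤ (2 * C1 + C3 ^ θ * C2) / c0 := by positivity
    calc _ ≤ C3 ^ θ * C2 * V * (Z : ℝ) ^ ((2 : ℝ) / 3) + 2 * C1 * V * (Z : ℝ) ^ ((2 : ℝ) / 3) :=
          add_le_add h2 h1
      _ = (2 * C1 + C3 ^ θ * C2) / c0 * V * (c0 * (Z : ℝ) ^ ((2 : ℝ) / 3)) := by
          field_simp
          ring
      _ ≤ (2 * C1 + C3 ^ θ * C2) / c0 * V * ((Gm P f Z).ncard : ℝ) :=
          mul_le_mul_of_nonneg_left hall' (mul_nonneg hpos hV0.le)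
      _ ≤ _ := mul_le_mul_of_nonneg_right (mul_le_mul_of_nonneg_right (le_max_right _ _) hV0.le)
          (Nat.cast_nonneg _)

end Pool.Agent.Q8.CD
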