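import Pool.Agent.TH498.CO.U3
import Pool.Agent.TH498.CO.Cur
import Pool.Agent.TH498.CO.Exc

/-!
# The quadratic twists of the curves with full rational 2-torsion ordered by the conductor
-/

set_option autoImplicit false

namespace Pool.Agent.Q8.CD

open Finset Pool.Agent.W307.SE Pool.Agent.TH498.AR Pool.Agent.H328R2.ABC
  Pool.Agent.H925R.Szpiro Pool.Agent.TH841.SH Pool.Agent.TH498.CO

/-- **The sum over the twists of the curves by `d`.** -/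
theorem curves_sum_tw (θ : ℝ) (hθ0 : 0 < θ) (hθ : θ < 2 / 3) (K A : ℝ) (hK : 0 ≤ K) (hA : 0 ≤ A) :
    ∃ C : ℝ, 1 ≤ C ∧ ∀ N : ℝ, 1 ≤ N → ∀ S : Finset (ℤ × ℤ), (∀ q ∈ S, Fam N K q) →
    ∀ d : ℤ, d ≠ 0 → (d.natAbs : ℝ) ≤ N ^ A →
    ∃ n : ℤ × ℤ → ℝ, (∀ q ∈ S, Bd (Pool.Agent.W307.RT.Sh (d ^ 2 * (-q.1)) (d ^ 3 * (-q.2))) (n q)) ∧
      ∑ q ∈ S, n q ^ θ ≤ C * 128 ^ d.natAbs.primeFactors.card * N ^ ((2 : ℝ) / 3) := by
  classical
  obtain ⟨C, hC, hall⟩ := all_twists2 θ hθ0 hθ K A hK hA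
  obtain ⟨τ, hτ⟩ := params
  refine ⟨12 * C * 6, by linarith, ?_⟩
  intro N hN S hS d hd hdN
  have hX1 : 1 ≤ 6 * N := by linarith
  have hX0 : 0 < 6 * N := by linarith
  refine ⟨fun q => ev sel d (τ q), fun q hq => ?_, ?_⟩
  · obtain ⟨h1, h2, -, -⟩ := hS q hq
    exact (hτ q h1 h2).2.2.1 d hd
  have hI : Set.InjOn τ (S : Set (ℤ × ℤ)) := by
    intro q hq q' hq' h
    obtain ⟨h1, h2, -, -⟩ := hS q hq
    obtain ⟨h1', h2', -, -⟩ := hS q' hq'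
    obtain ⟨-, -, -, -, g1, g2⟩ := hτ q h1 h2
    obtain ⟨-, -, -, -, g1', g2'⟩ := hτ q' h1' h2'
    rw [h] at g1 g2
    have e1 : q.1 = q'.1 := by linarith
    have e2 : q.2 = q'.2 := by linarith
    exact Prod.ext e1 e2
  have hnn : ∀ t : Par, 0 ≤ ev sel d t ^ θ := fun t => Real.rpow_nonneg (sel_nonneg _ _) _
  have hk1 : ∑ q ∈ S, ev sel d (τ q) ^ θ ≤ ∑ t ∈ TN (6 * N) K, ev sel d t ^ θ := by
    rw [← sum_image (f := fun t => ev sel d t ^ θ) hI]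
    refine sum_le_sum_of_subset_of_nonneg ?_ fun t _ _ => hnn t
    intro t ht
    obtain ⟨q, hq, rfl⟩ := mem_image.1 ht
    obtain ⟨h1, h2, h3, h4⟩ := hS q hq
    exact (hτ q h1 h2).1 N K hN hK h3 h4
  refine hk1.trans ?_
  unfold TN
  rw [sum_product]
  obtain ⟨V, hV⟩ : ∃ V : ℝ, V = 128 ^ d.natAbs.primeFactors.card := ⟨_, rfl⟩
  have hV0 : 0 < V := by rw [hV]; positivity
  have hk2 : ∀ x ∈ ({1, -1} : Finset ℤ) ×ˢ (range 2 ×ˢ range 3),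
      ∑ y ∈ ((Icc 1 ⌊6 * N⌋₊) ×ˢ (Icc 1 ⌊6 * N⌋₊)).sigma fun x : ℕ × ℕ => TT (6 * N) K x.1 x.2,
        ev sel d (x, y) ^ θ ≤ C * V * (6 * N) ^ ((2 : ℝ) / 3) := by
    rintro ⟨s, i, j⟩ hx
    rw [mem_product, mem_product, mem_range, mem_range, mem_insert, mem_singleton] at hx
    simp only at hx
    rw [sum_sigma]
    have := hall (6 * N) hX1 d hd
      (hdN.trans (Real.rpow_le_rpow (by linarith) (by linarith) hA)) s hx.1 i j (by omega) (by omega)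
    rw [← hV] at this
    exact this
  refine (sum_le_card_nsmul _ _ _ hk2).trans ?_
  rw [nsmul_eq_mul, ← hV]
  have hcard : (({1, -1} : Finset ℤ) ×ˢ (range 2 ×ˢ range 3)).card ≤ 12 := by
    rw [card_product, card_product, card_range, card_range]
    have h2 : ({1, -1} : Finset ℤ).card ≤ 2 := card_le_two
    omega
  have hcard' : (((({1, -1} : Finset ℤ) ×ˢ (range 2 ×ˢ range 3)).card : ℕ) : ℝ) ≤ 12 := by
    exact_mod_cast hcard
  have hXN : (6 * N) ^ ((2 : ℝ) / 3) ≤ 6 * N ^ ((2 : ℝ) / 3) := six_rpow hN (by norm_num)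
  calc _ ≤ 12 * (C * V * (6 * N) ^ ((2 : ℝ) / 3)) :=
        mul_le_mul_of_nonneg_right hcard' (by positivity)
    _ ≤ 12 * (C * V * (6 * N ^ ((2 : ℝ) / 3))) := by gcongr
    _ = _ := by ring

end Pool.Agent.Q8.CD
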